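import Pool.Agent.Work.MP_1233f5_ag.Sec.Coef

/-!
# MP_1233f5_ag: multilinear sections

`IsSec e f R s` : `s : Finset α → E` is an `sl₂`-invariant section over the letters `R`.
-/

set_option autoImplicit false

open Finset

namespace Pool.Agent.Work.MP_1233f5_ag.Sec

section

variable {K E : Type} [Field K] [CharZero K] [AddCommGroup E] [Module K E]
variable {α : Type} [DecidableEq α]

/-- sections over `R`. -/
structure IsSec (e f : E →ₗ[K] E) (R : Finset α) (s : Finset α → E) : Prop where
  supp : ∀ Y, ¬ Y ⊆ R → s Y = 0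
  ee : ∀ Y ⊆ R, e (s Y) = ∑ a ∈ R \ Y, s (insert a Y)
  ff : ∀ Y ⊆ R, f (s Y) = ∑ a ∈ Y, s (Y.erase a)

variable {e f h : E →ₗ[K] E}

omit [CharZero K] in
/-- the weight of the values. -/
theorem IsSec.hh (hs : Sl e f h) {R : Finset α} {s : Finset α → E} (H : IsSec e f R s)
    (Y : Finset α) (hY : Y ⊆ R) : h (s Y) = (2 * (Y.card : K) - R.card) • s Y := by
  have h1 := hs.ef (s Y)
  rw [H.ff Y hY, H.ee Y hY, map_sum, map_sum] at h1
  have h2 : ∀ a ∈ Y, e (s (Y.erase a)) = s Y + ∑ b ∈ R \ Y, s (insert b (Y.erase a)) := by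
    intro a ha
    rw [H.ee _ ((erase_subset _ _).trans hY)]
    have h3 : R \ Y.erase a = insert a (R \ Y) := by
      ext b
      simp only [mem_sdiff, mem_erase, mem_insert, not_and]
      constructor
      · rintro ⟨hb, hb'⟩
        by_cases hba : b = a
        · exact Or.inl hba
        · exact Or.inr ⟨hb, hb' hba⟩
      · rintro (rfl | ⟨hb, hb'⟩)
        · exact ⟨hY ha, fun hc => absurd rfl hc⟩
        · exact ⟨hb, fun _ => hb'⟩
    rw [h3, sum_insert (by simp [ha]), insert_erase ha]
  have h4 : ∀ b ∈ R \ Y, f (s (insert b Y)) = s Y + ∑ a ∈ Y, s (insert b (Y.erase a)) := by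
    intro b hb
    rw [mem_sdiff] at hb
    rw [H.ff _ (insert_subset hb.1 hY), sum_insert hb.2, erase_insert hb.2]
    congr 1
    refine sum_congr rfl fun a ha => ?_
    have hab : b ≠ a := fun hc => hb.2 (hc ▸ ha)
    rw [erase_insert_of_ne hab]
  rw [sum_congr rfl h2, sum_congr rfl h4, sum_add_distrib, sum_add_distrib, sum_comm,
    sum_const, sum_const, add_sub_add_right_eq_sub, ← Nat.cast_smul_eq_nsmul K,
    ← Nat.cast_smul_eq_nsmul K, ← sub_smul, card_sdiff_of_subset hY,
    Nat.cast_sub (card_le_card hY)] at h1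
  rw [← h1]
  congr 1
  ring

/-- (S1) sections antisymmetric in three letters vanish. -/
theorem IsSec.anti3 {R : Finset α} {s : Finset α → E} (_ : IsSec e f R s) (u v w : α)
    (huv : u ≠ v) (huw : u ≠ w) (hvw : v ≠ w)
    (h1 : ∀ Y : Finset α, s (Y.map (Equiv.swap u v).toEmbedding) = -s Y)
    (h2 : ∀ Y : Finset α, s (Y.map (Equiv.swap u w).toEmbedding) = -s Y)
    (h3 : ∀ Y : Finset α, s (Y.map (Equiv.swap v w).toEmbedding) = -s Y) (Y : Finset α) :
    s Y = 0 := by
  have key : ∀ a b : α, a ≠ b → (∀ Y : Finset α, s (Y.map (Equiv.swap a b).toEmbedding) = -s Y) →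
      ((a ∈ Y ∧ b ∈ Y) ∨ (a ∉ Y ∧ b ∉ Y)) → s Y = 0 := by
    intro a b _ hab hY
    have hm : Y.map (Equiv.swap a b).toEmbedding = Y := by
      ext c
      simp only [mem_map_equiv, Equiv.symm_swap]
      by_cases hca : c = a
      · subst hca
        rw [Equiv.swap_apply_left]
        rcases hY with ⟨p, q⟩ | ⟨p, q⟩
        · exact ⟨fun _ => p, fun _ => q⟩
        · exact ⟨fun t => absurd t q, fun t => absurd t p⟩
      · by_cases hcb : c = b
        · subst hcb
          rw [Equiv.swap_apply_right]
          rcases hY with ⟨p, q⟩ | ⟨p, q⟩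
          · exact ⟨fun _ => q, fun _ => p⟩
          · exact ⟨fun t => absurd t p, fun t => absurd t q⟩
        · rw [Equiv.swap_apply_of_ne_of_ne hca hcb]
    have h5 := hab Y
    rw [hm] at h5
    have h6 : (2 : K) • s Y = 0 := by
      rw [two_smul]
      nth_rw 1 [h5]
      rw [neg_add_cancel]
    exact (smul_eq_zero.1 h6).resolve_left two_ne_zero
  by_cases hu : u ∈ Y
  · by_cases hv : v ∈ Y
    · exact key u v huv h1 (Or.inl ⟨hu, hv⟩)
    · by_cases hw : w ∈ Y
      · exact key u w huw h2 (Or.inl ⟨hu, hw⟩)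
      · exact key v w hvw h3 (Or.inr ⟨hv, hw⟩)
  · by_cases hv : v ∈ Y
    · by_cases hw : w ∈ Y
      · exact key v w hvw h3 (Or.inl ⟨hv, hw⟩)
      · exact key u w huw h2 (Or.inr ⟨hu, hw⟩)
    · exact key u v huv h1 (Or.inr ⟨hu, hv⟩)

/-- multiplication by the bracket `uv`. -/
noncomputable def brk (u v : α) (x : Finset α → E) : Finset α → E := fun Y =>
  if v ∈ Y ∧ u ∉ Y then x (Y.erase v) else if u ∈ Y ∧ v ∉ Y then -x (Y.erase u) else 0

omit [CharZero K] in
/-- (S2) multiplication by a bracket. -/
theorem IsSec.brk {R : Finset α} {x : Finset α → E} {u v : α} (huv : u ≠ v) (hu : u ∉ R)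
    (hv : v ∉ R) (H : IsSec e f R x) : IsSec e f (insert u (insert v R)) (brk u v x) := by
  have hsub : ∀ Y, Y ⊆ insert u (insert v R) → ∀ a b : α, (a = u ∧ b = v ∨ a = v ∧ b = u) →
      a ∉ Y → Y.erase b ⊆ R := by
    intro Y hY a b hab ha c hc
    rw [mem_erase] at hc
    have hcY := hY hc.2
    rw [mem_insert, mem_insert] at hcY
    rcases hcY with rfl | rfl | hcR
    · rcases hab with ⟨rfl, rfl⟩ | ⟨rfl, rfl⟩
      · exact absurd hc.2 ha
      · exact absurd rfl hc.1
    · rcases hab with ⟨rfl, rfl⟩ | ⟨rfl, rfl⟩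
      · exact absurd rfl hc.1
      · exact absurd hc.2 ha
    · exact hcR
  refine ⟨?_, ?_, ?_⟩
  · intro Y hY
    unfold Sec.brk
    split_ifs with h1 h2
    · refine H.supp _ fun hc => hY fun c hcY => ?_
      rw [mem_insert, mem_insert]
      by_cases hcv : c = v
      · exact Or.inr (Or.inl hcv)
      · exact Or.inr (Or.inr (hc (mem_erase.2 ⟨hcv, hcY⟩)))
    · rw [H.supp _ fun hc => hY fun c hcY => ?_, neg_zero]
      rw [mem_insert, mem_insert]
      by_cases hcu : c = u
      · exact Or.inl hcu
      · exact Or.inr (Or.inr (hc (mem_erase.2 ⟨hcu, hcY⟩)))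
    · rfl
  · intro Y hY
    by_cases huY : u ∈ Y
    · by_cases hvY : v ∈ Y
      · -- both in Y
        have h0 : Sec.brk u v x Y = 0 := by
          unfold Sec.brk
          rw [if_neg (fun hc => hc.2 huY), if_neg (fun hc => hc.2 hvY)]
        rw [h0, map_zero]
        refine (sum_eq_zero fun a _ => ?_).symm
        unfold Sec.brk
        rw [if_neg (fun hc => hc.2 (mem_insert_of_mem huY)),
          if_neg (fun hc => hc.2 (mem_insert_of_mem hvY))]
      · -- u in Y, v not
        have h0 : Sec.brk u v x Y = -x (Y.erase u) := by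
          unfold Sec.brk
          rw [if_neg (fun hc => hvY hc.1), if_pos ⟨huY, hvY⟩]
        have hsb : Y.erase u ⊆ R := hsub Y hY v u (Or.inr ⟨rfl, rfl⟩) hvY
        have hR : insert u (insert v R) \ Y = insert v (R \ Y.erase u) := by
          ext c
          simp only [mem_sdiff, mem_insert, mem_erase]
          constructor
          · rintro ⟨rfl | rfl | hc, hc'⟩
            · exact absurd huY hc'
            · exact Or.inl rfl
            · exact Or.inr ⟨hc, fun t => hc' t.2⟩
          · rintro (rfl | ⟨hc, hc'⟩)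
            · exact ⟨Or.inr (Or.inl rfl), hvY⟩
            · exact ⟨Or.inr (Or.inr hc), fun t => hc' ⟨fun t' => hu (t' ▸ hc), t⟩⟩
        have hv' : v ∉ R \ Y.erase u := fun t => hv (mem_sdiff.1 t).1
        rw [h0, map_neg, H.ee _ hsb, hR, sum_insert hv', ← sum_neg_distrib]
        have h1 : Sec.brk u v x (insert v Y) = 0 := by
          unfold Sec.brk
          rw [if_neg (fun hc => hc.2 (mem_insert_of_mem huY)),
            if_neg (fun hc => hc.2 (mem_insert_self _ _))]
        rw [h1, zero_add]
        refine sum_congr rfl fun a ha => ?_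
        have haR := (mem_sdiff.1 ha).1
        have hau : a ≠ u := fun t => hu (t ▸ haR)
        have hav : a ≠ v := fun t => hv (t ▸ haR)
        unfold Sec.brk
        rw [if_neg (fun hc => hc.2 (mem_insert_of_mem huY)),
          if_pos ⟨mem_insert_of_mem huY, fun t => (mem_insert.1 t).elim (fun q => hav q.symm) hvY⟩,
          erase_insert_of_ne hau]
    · by_cases hvY : v ∈ Y
      · have h0 : Sec.brk u v x Y = x (Y.erase v) := by
          unfold Sec.brk
          rw [if_pos ⟨hvY, huY⟩]
        have hsb : Y.erase v ⊆ R := hsub Y hY u v (Or.inl ⟨rfl, rfl⟩) huY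
        have hR : insert u (insert v R) \ Y = insert u (R \ Y.erase v) := by
          ext c
          simp only [mem_sdiff, mem_insert, mem_erase]
          constructor
          · rintro ⟨rfl | rfl | hc, hc'⟩
            · exact Or.inl rfl
            · exact absurd hvY hc'
            · exact Or.inr ⟨hc, fun t => hc' t.2⟩
          · rintro (rfl | ⟨hc, hc'⟩)
            · exact ⟨Or.inl rfl, huY⟩
            · exact ⟨Or.inr (Or.inr hc), fun t => hc' ⟨fun t' => hv (t' ▸ hc), t⟩⟩
        have hu' : u ∉ R \ Y.erase v := fun t => hu (mem_sdiff.1 t).1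
        rw [h0, H.ee _ hsb, hR, sum_insert hu']
        have h1 : Sec.brk u v x (insert u Y) = 0 := by
          unfold Sec.brk
          rw [if_neg (fun hc => hc.2 (mem_insert_self _ _)),
            if_neg (fun hc => hc.2 (mem_insert_of_mem hvY))]
        rw [h1, zero_add]
        refine sum_congr rfl fun a ha => ?_
        have haR := (mem_sdiff.1 ha).1
        have hau : a ≠ u := fun t => hu (t ▸ haR)
        have hav : a ≠ v := fun t => hv (t ▸ haR)
        unfold Sec.brk
        rw [if_pos ⟨mem_insert_of_mem hvY, fun t => (mem_insert.1 t).elim (fun q => hau q.symm) huY⟩,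
          erase_insert_of_ne hav]
      · -- none
        have h0 : Sec.brk u v x Y = 0 := by
          unfold Sec.brk
          rw [if_neg (fun hc => hvY hc.1), if_neg (fun hc => huY hc.1)]
        have hR : insert u (insert v R) \ Y = insert u (insert v (R \ Y)) := by
          ext c
          simp only [mem_sdiff, mem_insert]
          constructor
          · rintro ⟨rfl | rfl | hc, hc'⟩
            · exact Or.inl rfl
            · exact Or.inr (Or.inl rfl)
            · exact Or.inr (Or.inr ⟨hc, hc'⟩)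
          · rintro (rfl | rfl | ⟨hc, hc'⟩)
            · exact ⟨Or.inl rfl, huY⟩
            · exact ⟨Or.inr (Or.inl rfl), hvY⟩
            · exact ⟨Or.inr (Or.inr hc), hc'⟩
        have hv' : v ∉ R \ Y := fun t => hv (mem_sdiff.1 t).1
        have hu' : u ∉ insert v (R \ Y) := fun t =>
          (mem_insert.1 t).elim huv (fun t => hu (mem_sdiff.1 t).1)
        rw [h0, map_zero, hR, sum_insert hu', sum_insert hv']
        have e1 : Sec.brk u v x (insert u Y) = -x Y := by
          unfold Sec.brk
          rw [if_neg (fun hc => hc.2 (mem_insert_self _ _)), if_pos ⟨mem_insert_self _ _,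
            fun t => (mem_insert.1 t).elim (fun q => huv q.symm) hvY⟩, erase_insert huY]
        have e2 : Sec.brk u v x (insert v Y) = x Y := by
          unfold Sec.brk
          rw [if_pos ⟨mem_insert_self _ _, fun t => (mem_insert.1 t).elim huv huY⟩,
            erase_insert hvY]
        have e3 : ∑ a ∈ R \ Y, Sec.brk u v x (insert a Y) = 0 := by
          refine sum_eq_zero fun a ha => ?_
          have haR := (mem_sdiff.1 ha).1
          have hau : a ≠ u := fun t => hu (t ▸ haR)
          have hav : a ≠ v := fun t => hv (t ▸ haR)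
          unfold Sec.brk
          rw [if_neg (fun hc => (mem_insert.1 hc.1).elim (fun q => hav q.symm) hvY),
            if_neg (fun hc => (mem_insert.1 hc.1).elim (fun q => hau q.symm) huY)]
        rw [e1, e2, e3, add_zero, neg_add_cancel]
  · intro Y hY
    by_cases huY : u ∈ Y
    · by_cases hvY : v ∈ Y
      · -- both in Y
        have h0 : Sec.brk u v x Y = 0 := by
          unfold Sec.brk
          rw [if_neg (fun hc => hc.2 huY), if_neg (fun hc => hc.2 hvY)]
        have hY2 : Y = insert u (insert v ((Y.erase u).erase v)) := by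
          rw [insert_erase (mem_erase.2 ⟨fun q => huv q.symm, hvY⟩), insert_erase huY]
        have hv' : v ∉ (Y.erase u).erase v := fun t => (mem_erase.1 t).1 rfl
        have hu' : u ∉ insert v ((Y.erase u).erase v) := fun t =>
          (mem_insert.1 t).elim huv (fun t => (mem_erase.1 (mem_erase.1 t).2).1 rfl)
        rw [h0, map_zero]
        have e1 : Sec.brk u v x (Y.erase u) = x ((Y.erase u).erase v) := by
          unfold Sec.brk
          rw [if_pos ⟨mem_erase.2 ⟨fun q => huv q.symm, hvY⟩, fun t => (mem_erase.1 t).1 rfl⟩]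
        have e2 : Sec.brk u v x (Y.erase v) = -x ((Y.erase u).erase v) := by
          unfold Sec.brk
          rw [if_neg (fun hc => (mem_erase.1 hc.1).1 rfl),
            if_pos ⟨mem_erase.2 ⟨huv, huY⟩, fun t => (mem_erase.1 t).1 rfl⟩, erase_right_comm]
        have e3 : ∑ a ∈ (Y.erase u).erase v, Sec.brk u v x (Y.erase a) = 0 := by
          refine sum_eq_zero fun a ha => ?_
          rw [mem_erase, mem_erase] at ha
          unfold Sec.brk
          rw [if_neg (fun hc => hc.2 (mem_erase.2 ⟨fun q => ha.2.1 q.symm, huY⟩)),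
            if_neg (fun hc => hc.2 (mem_erase.2 ⟨fun q => ha.1 q.symm, hvY⟩))]
        have e4 : ∑ a ∈ Y, Sec.brk u v x (Y.erase a) =
            ∑ a ∈ insert u (insert v ((Y.erase u).erase v)), Sec.brk u v x (Y.erase a) := by
          rw [← hY2]
        rw [e4, sum_insert hu', sum_insert hv', e1, e2, e3, add_zero, add_neg_cancel]
      · have h0 : Sec.brk u v x Y = -x (Y.erase u) := by
          unfold Sec.brk
          rw [if_neg (fun hc => hvY hc.1), if_pos ⟨huY, hvY⟩]
        have hsb : Y.erase u ⊆ R := hsub Y hY v u (Or.inr ⟨rfl, rfl⟩) hvY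
        rw [h0, map_neg, H.ff _ hsb, ← sum_neg_distrib]
        have e4 : ∑ a ∈ Y, Sec.brk u v x (Y.erase a) =
            ∑ a ∈ insert u (Y.erase u), Sec.brk u v x (Y.erase a) := by
          rw [insert_erase huY]
        have e1 : Sec.brk u v x (Y.erase u) = 0 := by
          unfold Sec.brk
          rw [if_neg (fun hc => hvY (mem_erase.1 hc.1).2),
            if_neg (fun hc => (mem_erase.1 hc.1).1 rfl)]
        rw [e4, sum_insert (fun t => (mem_erase.1 t).1 rfl), e1, zero_add]
        refine sum_congr rfl fun a ha => ?_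
        have hau := (mem_erase.1 ha).1
        unfold Sec.brk
        rw [if_neg (fun hc => hvY (mem_erase.1 hc.1).2),
          if_pos ⟨mem_erase.2 ⟨fun q => hau q.symm, huY⟩, fun t => hvY (mem_erase.1 t).2⟩,
          erase_right_comm]
    · by_cases hvY : v ∈ Y
      · have h0 : Sec.brk u v x Y = x (Y.erase v) := by
          unfold Sec.brk
          rw [if_pos ⟨hvY, huY⟩]
        have hsb : Y.erase v ⊆ R := hsub Y hY u v (Or.inl ⟨rfl, rfl⟩) huY
        rw [h0, H.ff _ hsb]
        have e4 : ∑ a ∈ Y, Sec.brk u v x (Y.erase a) =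
            ∑ a ∈ insert v (Y.erase v), Sec.brk u v x (Y.erase a) := by
          rw [insert_erase hvY]
        have e1 : Sec.brk u v x (Y.erase v) = 0 := by
          unfold Sec.brk
          rw [if_neg (fun hc => (mem_erase.1 hc.1).1 rfl),
            if_neg (fun hc => huY (mem_erase.1 hc.1).2)]
        rw [e4, sum_insert (fun t => (mem_erase.1 t).1 rfl), e1, zero_add]
        refine sum_congr rfl fun a ha => ?_
        have hav := (mem_erase.1 ha).1
        unfold Sec.brk
        rw [if_pos ⟨mem_erase.2 ⟨fun q => hav q.symm, hvY⟩, fun t => huY (mem_erase.1 t).2⟩,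
          erase_right_comm]
      · have h0 : Sec.brk u v x Y = 0 := by
          unfold Sec.brk
          rw [if_neg (fun hc => hvY hc.1), if_neg (fun hc => huY hc.1)]
        rw [h0, map_zero]
        refine (sum_eq_zero fun a _ => ?_).symm
        unfold Sec.brk
        rw [if_neg (fun hc => hvY (mem_erase.1 hc.1).2),
          if_neg (fun hc => huY (mem_erase.1 hc.1).2)]

/-- (S2) division by a bracket. -/
theorem IsSec.div {R : Finset α} {s : Finset α → E} {u v : α} (huv : u ≠ v) (hu : u ∉ R)
    (hv : v ∉ R) (H : IsSec e f (insert u (insert v R)) s)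
    (ha : ∀ Y : Finset α, s (Y.map (Equiv.swap u v).toEmbedding) = -s Y) :
    ∃ x : Finset α → E, IsSec e f R x ∧ s = Sec.brk u v x := by
  have hboth : ∀ Y : Finset α, ((u ∈ Y ∧ v ∈ Y) ∨ (u ∉ Y ∧ v ∉ Y)) → s Y = 0 := by
    intro Y hY
    have hm : Y.map (Equiv.swap u v).toEmbedding = Y := by
      ext c
      simp only [mem_map_equiv, Equiv.symm_swap]
      by_cases hca : c = u
      · subst hca
        rw [Equiv.swap_apply_left]
        rcases hY with ⟨p, q⟩ | ⟨p, q⟩
        · exact ⟨fun _ => p, fun _ => q⟩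
        · exact ⟨fun t => absurd t q, fun t => absurd t p⟩
      · by_cases hcb : c = v
        · subst hcb
          rw [Equiv.swap_apply_right]
          rcases hY with ⟨p, q⟩ | ⟨p, q⟩
          · exact ⟨fun _ => q, fun _ => p⟩
          · exact ⟨fun t => absurd t p, fun t => absurd t q⟩
        · rw [Equiv.swap_apply_of_ne_of_ne hca hcb]
    have h5 := ha Y
    rw [hm] at h5
    have h6 : (2 : K) • s Y = 0 := by
      rw [two_smul]
      nth_rw 1 [h5]
      rw [neg_add_cancel]
    exact (smul_eq_zero.1 h6).resolve_left two_ne_zero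
  -- exchanging `u` and `v`
  have hex : ∀ Z : Finset α, u ∉ Z → v ∉ Z → s (insert u Z) = -s (insert v Z) := by
    intro Z huZ hvZ
    have hm : (insert v Z).map (Equiv.swap u v).toEmbedding = insert u Z := by
      ext c
      simp only [mem_map_equiv, Equiv.symm_swap, mem_insert]
      by_cases hca : c = u
      · subst hca
        rw [Equiv.swap_apply_left]
        exact ⟨fun _ => Or.inl rfl, fun _ => Or.inl rfl⟩
      · by_cases hcb : c = v
        · subst hcb
          rw [Equiv.swap_apply_right]
          constructor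
          · rintro (q | q)
            · exact absurd q huv
            · exact absurd q huZ
          · rintro (q | q)
            · exact absurd q.symm huv
            · exact absurd q hvZ
        · rw [Equiv.swap_apply_of_ne_of_ne hca hcb]
          constructor
          · rintro (q | q)
            · exact absurd q hcb
            · exact Or.inr q
          · rintro (q | q)
            · exact absurd q hca
            · exact Or.inr q
    rw [← hm, ha]
  have hx : ∀ Y : Finset α, Y ⊆ R → u ∉ Y ∧ v ∉ Y := fun Y hY => ⟨fun q => hu (hY q),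
    fun q => hv (hY q)⟩
  refine ⟨fun Y => if u ∈ Y ∨ v ∈ Y then 0 else s (insert v Y), ⟨?_, ?_, ?_⟩, ?_⟩
  · intro Y hY
    split_ifs with h1
    · rfl
    · rw [not_or] at h1
      refine H.supp _ fun hc => hY fun c hcY => ?_
      have h2 := hc (mem_insert_of_mem hcY)
      rw [mem_insert, mem_insert] at h2
      rcases h2 with rfl | rfl | h2
      · exact absurd hcY h1.1
      · exact absurd hcY h1.2
      · exact h2
  · intro Y hY
    obtain ⟨huY, hvY⟩ := hx Y hY
    have hvs : insert v Y ⊆ insert u (insert v R) := insert_subset (mem_insert_of_mem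
      (mem_insert_self _ _)) (fun c hc => mem_insert_of_mem (mem_insert_of_mem (hY hc)))
    have hR : insert u (insert v R) \ insert v Y = insert u (R \ Y) := by
      ext c
      simp only [mem_sdiff, mem_insert, not_or]
      constructor
      · rintro ⟨rfl | rfl | hc, hc'⟩
        · exact Or.inl rfl
        · exact absurd rfl hc'.1
        · exact Or.inr ⟨hc, hc'.2⟩
      · rintro (rfl | ⟨hc, hc'⟩)
        · exact ⟨Or.inl rfl, huv, huY⟩
        · exact ⟨Or.inr (Or.inr hc), fun q => hv (q ▸ hc), hc'⟩
    have hu' : u ∉ R \ Y := fun t => hu (mem_sdiff.1 t).1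
    rw [if_neg (not_or.2 ⟨huY, hvY⟩), H.ee _ hvs, hR, sum_insert hu',
      hboth _ (Or.inl ⟨mem_insert_self _ _, mem_insert_of_mem (mem_insert_self _ _)⟩), zero_add]
    refine sum_congr rfl fun a ha' => ?_
    have haR := (mem_sdiff.1 ha').1
    have hau : u ≠ a := fun t => hu (t ▸ haR)
    have hav : v ≠ a := fun t => hv (t ▸ haR)
    rw [if_neg (not_or.2 ⟨fun t => (mem_insert.1 t).elim hau huY,
      fun t => (mem_insert.1 t).elim hav hvY⟩), insert_comm]
  · intro Y hY
    obtain ⟨huY, hvY⟩ := hx Y hY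
    have hvs : insert v Y ⊆ insert u (insert v R) := insert_subset (mem_insert_of_mem
      (mem_insert_self _ _)) (fun c hc => mem_insert_of_mem (mem_insert_of_mem (hY hc)))
    rw [if_neg (not_or.2 ⟨huY, hvY⟩), H.ff _ hvs, sum_insert hvY, erase_insert hvY,
      hboth _ (Or.inr ⟨huY, hvY⟩), zero_add]
    refine sum_congr rfl fun a haY => ?_
    have hav : v ≠ a := fun t => hvY (t ▸ haY)
    rw [if_neg (not_or.2 ⟨fun t => huY (mem_erase.1 t).2, fun t => hvY (mem_erase.1 t).2⟩),
      erase_insert_of_ne hav]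
  · funext Y
    unfold Sec.brk
    beta_reduce
    by_cases huY : u ∈ Y
    · by_cases hvY : v ∈ Y
      · rw [if_neg (fun hc => hc.2 huY), if_neg (fun hc => hc.2 hvY), hboth Y (Or.inl ⟨huY, hvY⟩)]
      · have h1 : ¬ (u ∈ Y.erase u ∨ v ∈ Y.erase u) := by
          rw [not_or]
          exact ⟨fun t => (mem_erase.1 t).1 rfl, fun t => hvY (mem_erase.1 t).2⟩
        rw [if_neg (fun hc => hvY hc.1), if_pos ⟨huY, hvY⟩, if_neg h1]
        rw [not_or] at h1
        rw [← hex _ h1.1 h1.2, insert_erase huY]
    · by_cases hvY : v ∈ Y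
      · have h1 : ¬ (u ∈ Y.erase v ∨ v ∈ Y.erase v) := by
          rw [not_or]
          exact ⟨fun t => huY (mem_erase.1 t).2, fun t => (mem_erase.1 t).1 rfl⟩
        rw [if_pos ⟨hvY, huY⟩, if_neg h1, insert_erase hvY]
      · rw [if_neg (fun hc => hvY hc.1), if_neg (fun hc => huY hc.1), hboth Y (Or.inr ⟨huY, hvY⟩)]

/-- (S4) existence of the invariant section with a given value. -/
theorem exists_sec (hs : Sl e f h) (X Y0 : Finset α) (hd : Disjoint X Y0) (ε : E)
    (hε : h ε = ((Y0.card : K) - X.card) • ε) (he : (e ^ (X.card + 1)) ε = 0)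
    (hf : (f ^ (Y0.card + 1)) ε = 0) :
    ∃ s : Finset α → E, IsSec e f (X ∪ Y0) s ∧ s Y0 = ε ∧
      ∀ Y Y' : Finset α, Y ⊆ X ∪ Y0 → Y' ⊆ X ∪ Y0 → (Y ∩ X).card = (Y' ∩ X).card →
        (Y0 \ Y).card = (Y0 \ Y').card → s Y = s Y' := by
  obtain ⟨a, a0, ae, af⟩ := exists_coef hs X.card Y0.card ε hε he hf
  have hXY : ∀ c, c ∈ X → c ∉ Y0 := fun c h1 h2 => (Finset.disjoint_left.1 hd) h1 h2
  refine ⟨fun Y => if Y ⊆ X ∪ Y0 then a (Y ∩ X).card (Y0 \ Y).card else 0, ⟨?_, ?_, ?_⟩, ?_, ?_⟩
  · intro Y hY
    exact if_neg hY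
  · intro Y hY
    have hi : (Y ∩ X).card ≤ X.card := card_le_card inter_subset_right
    have hj : (Y0 \ Y).card ≤ Y0.card := card_le_card sdiff_subset
    rw [if_pos hY, ae _ hi _ hj]
    have hsplit : (X ∪ Y0) \ Y = (X \ Y) ∪ (Y0 \ Y) := union_sdiff_distrib _ _ _
    have hdis : Disjoint (X \ Y) (Y0 \ Y) := hd.mono sdiff_subset sdiff_subset
    rw [hsplit, sum_union hdis]
    have h1 : ∀ c ∈ X \ Y, (if insert c Y ⊆ X ∪ Y0 then
        a (insert c Y ∩ X).card (Y0 \ insert c Y).card else 0) =
          a ((Y ∩ X).card + 1) (Y0 \ Y).card := by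
      intro c hc
      rw [mem_sdiff] at hc
      rw [if_pos (insert_subset (mem_union_left _ hc.1) hY), insert_inter_of_mem hc.1,
        card_insert_of_notMem (fun t => hc.2 (mem_inter.1 t).1)]
      congr 2
      ext b
      simp only [mem_sdiff, mem_insert, not_or]
      exact ⟨fun t => ⟨t.1, t.2.2⟩, fun t => ⟨t.1, fun q => hXY c hc.1 (q ▸ t.1), t.2⟩⟩
    have h2 : ∀ c ∈ Y0 \ Y, (if insert c Y ⊆ X ∪ Y0 then
        a (insert c Y ∩ X).card (Y0 \ insert c Y).card else 0) =
          a (Y ∩ X).card ((Y0 \ Y).card - 1) := by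
      intro c hc
      have hc' := mem_sdiff.1 hc
      rw [if_pos (insert_subset (mem_union_right _ hc'.1) hY),
        insert_inter_of_notMem (fun t => hXY c t hc'.1)]
      have : Y0 \ insert c Y = (Y0 \ Y).erase c := by
        ext b
        simp only [mem_sdiff, mem_insert, not_or, mem_erase]
        exact ⟨fun t => ⟨t.2.1, t.1, t.2.2⟩, fun t => ⟨t.2.1, t.1, t.2.2⟩⟩
      rw [this, card_erase_of_mem hc]
    rw [sum_congr rfl h1, sum_congr rfl h2, sum_const, sum_const, ← Nat.cast_smul_eq_nsmul K,
      ← Nat.cast_smul_eq_nsmul K]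
    congr 2
    have h3 : (X \ Y).card + (Y ∩ X).card = X.card := by
      rw [inter_comm, add_comm, card_inter_add_card_sdiff]
    have h4 : ((X \ Y).card : K) + ((Y ∩ X).card : K) = X.card := by exact_mod_cast h3
    rw [← h4]
    ring
  · intro Y hY
    have hi : (Y ∩ X).card ≤ X.card := card_le_card inter_subset_right
    have hj : (Y0 \ Y).card ≤ Y0.card := card_le_card sdiff_subset
    rw [if_pos hY, af _ hi _ hj]
    have hsplit : Y = (Y ∩ X) ∪ (Y ∩ Y0) := by
      rw [← inter_union_distrib_left]
      exact (inter_eq_left.2 hY).symm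
    have hdis : Disjoint (Y ∩ X) (Y ∩ Y0) := hd.mono inter_subset_right inter_subset_right
    have h1 : ∀ c ∈ Y ∩ X, (if Y.erase c ⊆ X ∪ Y0 then
        a (Y.erase c ∩ X).card (Y0 \ Y.erase c).card else 0) =
          a ((Y ∩ X).card - 1) (Y0 \ Y).card := by
      intro c hc
      have hc' := mem_inter.1 hc
      rw [if_pos ((erase_subset _ _).trans hY), erase_inter, card_erase_of_mem hc]
      congr 2
      ext b
      simp only [mem_sdiff, mem_erase, not_and]
      exact ⟨fun t => ⟨t.1, t.2 (fun q => hXY c hc'.2 (q ▸ t.1))⟩, fun t => ⟨t.1, fun _ => t.2⟩⟩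
    have h2 : ∀ c ∈ Y ∩ Y0, (if Y.erase c ⊆ X ∪ Y0 then
        a (Y.erase c ∩ X).card (Y0 \ Y.erase c).card else 0) =
          a (Y ∩ X).card ((Y0 \ Y).card + 1) := by
      intro c hc
      have hc' := mem_inter.1 hc
      rw [if_pos ((erase_subset _ _).trans hY), erase_inter,
        erase_eq_of_notMem (fun t => hXY c (mem_inter.1 t).2 hc'.2)]
      have : Y0 \ Y.erase c = insert c (Y0 \ Y) := by
        ext b
        simp only [mem_sdiff, mem_insert, mem_erase, not_and]
        constructor
        · rintro ⟨hb, hb'⟩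
          by_cases hbc : b = c
          · exact Or.inl hbc
          · exact Or.inr ⟨hb, hb' hbc⟩
        · rintro (rfl | ⟨hb, hb'⟩)
          · exact ⟨hc'.2, fun q => absurd rfl q⟩
          · exact ⟨hb, fun _ => hb'⟩
      rw [this, card_insert_of_notMem (fun t => (mem_sdiff.1 t).2 hc'.1)]
    have h5 : ∑ c ∈ Y, (if Y.erase c ⊆ X ∪ Y0 then
        a (Y.erase c ∩ X).card (Y0 \ Y.erase c).card else 0) =
        ∑ c ∈ (Y ∩ X) ∪ (Y ∩ Y0), (if Y.erase c ⊆ X ∪ Y0 then
        a (Y.erase c ∩ X).card (Y0 \ Y.erase c).card else 0) := by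
      rw [← hsplit]
    rw [h5, sum_union hdis, sum_congr rfl h1, sum_congr rfl h2, sum_const, sum_const,
      ← Nat.cast_smul_eq_nsmul K, ← Nat.cast_smul_eq_nsmul K]
    congr 2
    have h3 : (Y ∩ Y0).card + (Y0 \ Y).card = Y0.card := by
      rw [inter_comm, card_inter_add_card_sdiff]
    have h4 : ((Y ∩ Y0).card : K) + ((Y0 \ Y).card : K) = Y0.card := by exact_mod_cast h3
    rw [← h4]
    ring
  · beta_reduce
    rw [if_pos subset_union_right, (Finset.disjoint_iff_inter_eq_empty.1 hd.symm),
      Finset.sdiff_self, card_empty, a0]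
  · intro Y Y' hY hY' h1 h2
    beta_reduce
    rw [if_pos hY, if_pos hY', h1, h2]

end

end Pool.Agent.Work.MP_1233f5_ag.Sec
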