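import Mathlib

/-!
# MP_1233f5_ag: the explicit invariant section with a given value

`e f h` an `sl₂`-triple on `E`, `ε` of weight `n - m` with `e^(m+1) ε = 0`, `f^(n+1) ε = 0`: there
are `a i j`, `i ≤ m`, `j ≤ n`, with `a 0 0 = ε` and
`e (a i j) = (m-i) a (i+1) j + j a i (j-1)`, `f (a i j) = i a (i-1) j + (n-j) a i (j+1)`.
-/

set_option autoImplicit false

namespace Pool.Agent.Work.MP_1233f5_ag.Sec

section

variable {K E : Type} [Field K] [CharZero K] [AddCommGroup E] [Module K E]

/-- `sl₂`-triple. -/
structure Sl (e f h : E →ₗ[K] E) : Prop where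
  ef : ∀ x, e (f x) - f (e x) = h x
  he : ∀ x, h (e x) - e (h x) = (2 : K) • e x
  hf : ∀ x, h (f x) - f (h x) = -((2 : K) • f x)

/-- the coefficients. -/
noncomputable def co (e f : E →ₗ[K] E) (m n : ℕ) (ε : E) : ℕ → ℕ → E
  | 0, 0 => ε
  | 0, j + 1 => ((n : K) - j)⁻¹ • f (co e f m n ε 0 j)
  | i + 1, j => ((m : K) - i)⁻¹ • (e (co e f m n ε i j) - (j : K) • co e f m n ε i (j - 1))

theorem sub_ne {m i : ℕ} (hi : i < m) : (m : K) - i ≠ 0 := by
  rw [sub_ne_zero]
  exact_mod_cast hi.ne'

variable {e f h : E →ₗ[K] E}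

theorem co_e (m n : ℕ) (ε : E) (i j : ℕ) (hi : i < m) :
    e (co e f m n ε i j) = ((m : K) - i) • co e f m n ε (i + 1) j +
      (j : K) • co e f m n ε i (j - 1) := by
  have h1 : co e f m n ε (i + 1) j =
      ((m : K) - i)⁻¹ • (e (co e f m n ε i j) - (j : K) • co e f m n ε i (j - 1)) := by
    rw [co]
  rw [h1, smul_smul, mul_inv_cancel₀ (sub_ne hi), one_smul, sub_add_cancel]

omit [CharZero K] in
theorem co_0j (m n : ℕ) (ε : E) (j : ℕ) : ∃ c : K, co e f m n ε 0 j = c • (f ^ j) ε := by
  induction j with
  | zero => exact ⟨1, by rw [co, pow_zero, one_smul]; rfl⟩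
  | succ j ih =>
    obtain ⟨c, hc⟩ := ih
    refine ⟨((n : K) - j)⁻¹ * c, ?_⟩
    rw [co, hc, map_smul, smul_smul, pow_succ', Module.End.mul_apply]

omit [CharZero K] in
theorem co_i0 (m n : ℕ) (ε : E) (i : ℕ) : ∃ c : K, co e f m n ε i 0 = c • (e ^ i) ε := by
  induction i with
  | zero => exact ⟨1, by rw [co, pow_zero, one_smul]; rfl⟩
  | succ i ih =>
    obtain ⟨c, hc⟩ := ih
    refine ⟨((m : K) - i)⁻¹ * c, ?_⟩
    rw [co, hc, Nat.cast_zero, zero_smul, sub_zero, map_smul, smul_smul, pow_succ',
      Module.End.mul_apply]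

/-- weights and the `f`-equation. -/
theorem co_main (hs : Sl e f h) (m n : ℕ) (ε : E) (hε : h ε = ((n : K) - m) • ε)
    (hf : (f ^ (n + 1)) ε = 0) (i : ℕ) (hi : i ≤ m) : ∀ j ≤ n,
    h (co e f m n ε i j) = ((n : K) - m + 2 * i - 2 * j) • co e f m n ε i j ∧
    f (co e f m n ε i j) = (i : K) • co e f m n ε (i - 1) j +
      ((n : K) - j) • co e f m n ε i (j + 1) := by
  induction i with
  | zero =>
    have hw : ∀ j ≤ n, h (co e f m n ε 0 j) =
        ((n : K) - m + 2 * (0 : ℕ) - 2 * j) • co e f m n ε 0 j := by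
      intro j
      induction j with
      | zero =>
        intro _
        rw [co, hε]
        congr 1
        push_cast
        ring
      | succ j ih =>
        intro hj
        have h1 := ih (by omega)
        have h2 := hs.hf (co e f m n ε 0 j)
        rw [h1, map_smul] at h2
        rw [co, map_smul]
        have h3 : h (f (co e f m n ε 0 j)) =
            ((n : K) - m + 2 * (0 : ℕ) - 2 * (j + 1 : ℕ)) • f (co e f m n ε 0 j) := by
          push_cast at h2 ⊢
          linear_combination (norm := module) h2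
        rw [h3, smul_comm]
    intro j hj
    refine ⟨hw j hj, ?_⟩
    rw [Nat.cast_zero, zero_smul, zero_add]
    rcases Nat.lt_or_ge j n with hjn | hjn
    · have h1 : co e f m n ε 0 (j + 1) = ((n : K) - j)⁻¹ • f (co e f m n ε 0 j) := by rw [co]
      rw [h1, smul_smul, mul_inv_cancel₀ (sub_ne hjn), one_smul]
    · have hjn' : j = n := le_antisymm hj hjn
      subst hjn'
      obtain ⟨c, hc⟩ := co_0j (e := e) (f := f) m j ε j
      rw [hc, map_smul, ← Module.End.mul_apply, ← pow_succ', hf, smul_zero, sub_self, zero_smul]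
  | succ i ih =>
    have hi' : i < m := by omega
    have him : ((m : K) - i) ≠ 0 := sub_ne hi'
    have ih' := ih (by omega)
    have heq := fun j => co_e (e := e) (f := f) m n ε i j hi'
    intro j hj
    obtain ⟨w, F⟩ := ih' j hj
    -- the weight
    have hwt : h (co e f m n ε (i + 1) j) =
        ((n : K) - m + 2 * ((i + 1 : ℕ) : K) - 2 * j) • co e f m n ε (i + 1) j := by
      have h1 := congrArg h (heq j)
      rw [map_add, map_smul, map_smul] at h1
      have h2 := hs.he (co e f m n ε i j)
      rw [w, map_smul] at h2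
      have h3 : (j : K) • h (co e f m n ε i (j - 1)) =
          ((n : K) - m + 2 * ((i + 1 : ℕ) : K) - 2 * j) • ((j : K) • co e f m n ε i (j - 1)) := by
        rcases j with _ | j
        · rw [Nat.cast_zero, zero_smul, zero_smul, smul_zero]
        · rw [Nat.add_sub_cancel, (ih' j (by omega)).1, smul_comm]
          have hcc : ((n : K) - m + 2 * i - 2 * j) =
              ((n : K) - m + 2 * ((i + 1 : ℕ) : K) - 2 * ((j + 1 : ℕ) : K)) := by
            push_cast
            ring
          rw [hcc]
      have h4 : ((m : K) - i) • h (co e f m n ε (i + 1) j) = ((m : K) - i) •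
          (((n : K) - m + 2 * ((i + 1 : ℕ) : K) - 2 * j) • co e f m n ε (i + 1) j) := by
        push_cast at h3 ⊢
        linear_combination (norm := module) h2 - h1 - h3 +
          ((n : K) - m + 2 * i - 2 * j + 2) • heq j
      exact smul_right_injective E him h4
    refine ⟨hwt, ?_⟩
    -- the `f`-equation
    have h1 := congrArg f (heq j)
    rw [map_add, map_smul, map_smul] at h1
    have h2 := hs.ef (co e f m n ε i j)
    rw [w, F, map_add, map_smul, map_smul] at h2
    have h5 : (i : K) • e (co e f m n ε (i - 1) j) =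
        (i : K) • (((m : K) - i + 1) • co e f m n ε i j + (j : K) • co e f m n ε (i - 1) (j - 1)) := by
      rcases i with _ | i
      · rw [Nat.cast_zero, zero_smul, zero_smul]
      · rw [Nat.add_sub_cancel, co_e (e := e) (f := f) m n ε i j (by omega)]
        push_cast
        module
    have h6 : ((n : K) - j) • e (co e f m n ε i (j + 1)) =
        ((n : K) - j) • (((m : K) - i) • co e f m n ε (i + 1) (j + 1) +
          ((j : K) + 1) • co e f m n ε i j) := by
      rw [heq (j + 1), Nat.add_sub_cancel]
      push_cast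
      rfl
    have h7 : (j : K) • f (co e f m n ε i (j - 1)) =
        (j : K) • ((i : K) • co e f m n ε (i - 1) (j - 1) + ((n : K) - j + 1) • co e f m n ε i j) := by
      rcases j with _ | j
      · rw [Nat.cast_zero, zero_smul, zero_smul]
      · rw [Nat.add_sub_cancel, (ih' j (by omega)).2]
        push_cast
        module
    have h8 : ((m : K) - i) • f (co e f m n ε (i + 1) j) = ((m : K) - i) •
        (((i + 1 : ℕ) : K) • co e f m n ε (i + 1 - 1) j +
          ((n : K) - j) • co e f m n ε (i + 1) (j + 1)) := by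
      rw [Nat.add_sub_cancel]
      push_cast
      linear_combination (norm := module) -h1 - h2 + h5 + h6 - h7
    exact smul_right_injective E him h8

/-- EXISTENCE of the coefficients. -/
theorem exists_coef (hs : Sl e f h) (m n : ℕ) (ε : E) (hε : h ε = ((n : K) - m) • ε)
    (he : (e ^ (m + 1)) ε = 0) (hf : (f ^ (n + 1)) ε = 0) :
    ∃ a : ℕ → ℕ → E, a 0 0 = ε ∧
      (∀ i ≤ m, ∀ j ≤ n, e (a i j) = ((m : K) - i) • a (i + 1) j + (j : K) • a i (j - 1)) ∧
      (∀ i ≤ m, ∀ j ≤ n, f (a i j) = (i : K) • a (i - 1) j + ((n : K) - j) • a i (j + 1)) := by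
  refine ⟨co e f m n ε, by rw [co], ?_, fun i hi j hj => (co_main hs m n ε hε hf i hi j hj).2⟩
  intro i hi j hj
  rcases Nat.lt_or_ge i m with him | him
  · exact co_e m n ε i j him
  have him' : i = m := le_antisymm hi him
  subst him'
  rw [sub_self, zero_smul, zero_add]
  induction j with
  | zero =>
    obtain ⟨c, hc⟩ := co_i0 (e := e) (f := f) i n ε i
    rw [hc, map_smul, ← Module.End.mul_apply, ← pow_succ', he, smul_zero, Nat.cast_zero, zero_smul]
  | succ j ih =>
    have hj' : j < n := by omega
    have D := ih (by omega)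
    obtain ⟨w, F⟩ := co_main hs i n ε hε hf i le_rfl j (by omega)
    have hnj : ((n : K) - j) ≠ 0 := sub_ne hj'
    have h1 := congrArg e F
    rw [map_add, map_smul, map_smul] at h1
    have h2 := hs.ef (co e f i n ε i j)
    rw [w, D, map_smul] at h2
    have h3 : (i : K) • e (co e f i n ε (i - 1) j) =
        (i : K) • (co e f i n ε i j + (j : K) • co e f i n ε (i - 1) (j - 1)) := by
      rcases i with _ | i
      · rw [Nat.cast_zero, zero_smul, zero_smul]
      · rw [Nat.add_sub_cancel, co_e (e := e) (f := f) (i + 1) n ε i j (by omega)]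
        push_cast
        module
    have h4 : (j : K) • f (co e f i n ε i (j - 1)) =
        (j : K) • ((i : K) • co e f i n ε (i - 1) (j - 1) +
          ((n : K) - j + 1) • co e f i n ε i j) := by
      rcases j with _ | j
      · rw [Nat.cast_zero, zero_smul, zero_smul]
      · rw [Nat.add_sub_cancel, (co_main hs i n ε hε hf i le_rfl j (by omega)).2]
        push_cast
        module
    have h5 : ((n : K) - j) • e (co e f i n ε i (j + 1)) =
        ((n : K) - j) • (((j + 1 : ℕ) : K) • co e f i n ε i (j + 1 - 1)) := by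
      rw [Nat.add_sub_cancel]
      push_cast
      linear_combination (norm := module) -h1 + h2 - h3 + h4
    exact smul_right_injective E hnj h5

end

end Pool.Agent.Work.MP_1233f5_ag.Sec
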