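import Pool.Agent.Work.MP_1233f5_ag.Sec.Fock

/-!
# MP_1233f5_ag: degrees, weights, Koszul facts in the Fock space
-/

set_option autoImplicit false

open Finset

namespace Pool.Agent.Work.MP_1233f5_ag.Sec

section

variable {K : Type} [Field K]

/-- `x` is in `Λ^k` of the span of the basis vectors `0..r`. -/
def IsDeg (r k : ℕ) (x : Fk K) : Prop := ∀ S, x S ≠ 0 → S ⊆ range (r + 1) ∧ S.card = k

theorem IsDeg.zero (r k : ℕ) : IsDeg r k (0 : Fk K) := fun _ h => absurd rfl h

theorem IsDeg.add {r k : ℕ} {x y : Fk K} (hx : IsDeg r k x) (hy : IsDeg r k y) :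
    IsDeg r k (x + y) := by
  intro S h
  by_cases h1 : x S = 0
  · refine hy S fun h2 => h ?_
    rw [Pi.add_apply, h1, h2, add_zero]
  · exact hx S h1

theorem IsDeg.smul {r k : ℕ} {x : Fk K} (c : K) (hx : IsDeg r k x) : IsDeg r k (c • x) := by
  intro S h
  refine hx S fun h2 => h ?_
  rw [Pi.smul_apply, h2, smul_zero]

theorem IsDeg.neg {r k : ℕ} {x : Fk K} (hx : IsDeg r k x) : IsDeg r k (-x) := by
  intro S h
  refine hx S fun h2 => h ?_
  rw [Pi.neg_apply, h2, neg_zero]

theorem IsDeg.sub {r k : ℕ} {x y : Fk K} (hx : IsDeg r k x) (hy : IsDeg r k y) :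
    IsDeg r k (x - y) := by
  rw [sub_eq_add_neg]
  exact hx.add hy.neg

theorem IsDeg.sum {r k : ℕ} {ι : Type} (s : Finset ι) (x : ι → Fk K)
    (hx : ∀ i ∈ s, IsDeg r k (x i)) : IsDeg r k (∑ i ∈ s, x i) := by
  classical
  induction s using Finset.induction_on with
  | empty =>
    rw [sum_empty]
    exact IsDeg.zero r k
  | insert a s ha ih =>
    rw [sum_insert ha]
    exact (hx a (mem_insert_self a s)).add (ih fun i hi => hx i (mem_insert_of_mem hi))

theorem IsDeg.wd {r k i : ℕ} (hi : i ≤ r) {x : Fk K} (hx : IsDeg r k x) :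
    IsDeg r (k + 1) (wd i x) := by
  intro S h
  rw [wd_apply] at h
  split_ifs at h with h1
  · obtain ⟨h2, h3⟩ := hx _ (right_ne_zero_of_mul h)
    refine ⟨?_, ?_⟩
    · rw [← insert_erase h1]
      exact insert_subset (mem_range.2 (by omega)) h2
    · rw [card_erase_of_mem h1] at h3
      have : 0 < S.card := card_pos.2 ⟨i, h1⟩
      omega
  · exact absurd rfl h

theorem IsDeg.ct {r k : ℕ} (i : ℕ) {x : Fk K} (hx : IsDeg r (k + 1) x) :
    IsDeg r k (ct i x) := by
  intro S h
  rw [ct_apply] at h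
  split_ifs at h with h1
  · exact absurd rfl h
  · obtain ⟨h2, h3⟩ := hx _ (right_ne_zero_of_mul h)
    refine ⟨(subset_insert i S).trans h2, ?_⟩
    rw [card_insert_of_notMem h1] at h3
    omega

theorem IsDeg.ct_zero {r : ℕ} (i : ℕ) {x : Fk K} (hx : IsDeg r 0 x) : Sec.ct i x = 0 := by
  funext S
  rw [ct_apply, Pi.zero_apply]
  split_ifs with h1
  · rfl
  · by_contra h
    obtain ⟨-, h3⟩ := hx _ (right_ne_zero_of_mul h)
    rw [card_insert_of_notMem h1] at h3
    omega

theorem IsDeg.ee {r k : ℕ} {x : Fk K} (hx : IsDeg r k x) : IsDeg r k (ee K r x) := by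
  rw [ee_apply]
  refine IsDeg.sum _ _ fun i hi => IsDeg.smul _ ?_
  rw [mem_range] at hi
  rcases k with _ | k
  · rw [hx.ct_zero, map_zero]
    exact IsDeg.zero _ _
  · exact (hx.ct i).wd (by omega)

theorem IsDeg.ff {r k : ℕ} {x : Fk K} (hx : IsDeg r k x) : IsDeg r k (ff K r x) := by
  rw [ff_apply]
  refine IsDeg.sum _ _ fun i hi => IsDeg.smul _ ?_
  rw [mem_range] at hi
  rcases k with _ | k
  · rw [hx.ct_zero, map_zero]
    exact IsDeg.zero _ _
  · exact (hx.ct (i + 1)).wd (by omega)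

theorem IsDeg.hh {r k : ℕ} {x : Fk K} (hx : IsDeg r k x) : IsDeg r k (hh K r x) := by
  intro S h
  exact hx S (right_ne_zero_of_mul (show wt K r S * x S ≠ 0 from h))

/-- above the top degree. -/
theorem IsDeg.eq_zero {r k : ℕ} {x : Fk K} (hx : IsDeg r k x) (hk : r + 1 < k) : x = 0 := by
  funext S
  by_contra h
  obtain ⟨h1, h2⟩ := hx S h
  have h3 := card_le_card h1
  rw [card_range] at h3
  omega

/-- the number operator. -/
theorem IsDeg.num {r k : ℕ} {x : Fk K} (hx : IsDeg r k x) :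
    ∑ i ∈ range (r + 1), Sec.wd i (Sec.ct i x) = (k : K) • x := by
  funext S
  rw [Finset.sum_apply, Pi.smul_apply, smul_eq_mul]
  simp only [wd_ct_self]
  rw [← sum_filter, sum_const, nsmul_eq_mul]
  by_cases h : x S = 0
  · rw [h, mul_zero, mul_zero]
  · obtain ⟨h1, h2⟩ := hx S h
    have h3 : (range (r + 1)).filter (fun i => i ∈ S) = S := by
      ext i
      rw [mem_filter]
      exact ⟨fun t => t.2, fun t => ⟨h1 t, t⟩⟩
    rw [h3, h2]

variable [CharZero K]

/-- surjectivity. -/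
theorem IsDeg.eq_sum {r k : ℕ} {x : Fk K} (hx : IsDeg r (k + 1) x) :
    x = ∑ i ∈ range (r + 1), Sec.wd i (((k : K) + 1)⁻¹ • Sec.ct i x) := by
  have h1 := hx.num
  have hk : ((k : K) + 1) ≠ 0 := by exact_mod_cast Nat.succ_ne_zero k
  have h2 : ∀ i ∈ range (r + 1), Sec.wd i (((k : K) + 1)⁻¹ • Sec.ct i x) =
      ((k : K) + 1)⁻¹ • Sec.wd i (Sec.ct i x) := fun i _ => by rw [map_smul]
  rw [sum_congr rfl h2, ← smul_sum, h1, smul_smul]
  push_cast
  rw [inv_mul_cancel₀ hk, one_smul]

/-- exactness of the Koszul complex. -/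
theorem koszul {r k : ℕ} (x : ℕ → Fk K) (hx : ∀ i, IsDeg r (k + 1) (x i))
    (h0 : ∑ i ∈ range (r + 1), Sec.wd i (x i) = 0) (i : ℕ) (hi : i ≤ r) :
    x i = ∑ j ∈ range (r + 1),
      Sec.wd j (((k : K) + 2)⁻¹ • (Sec.ct j (x i) + Sec.ct i (x j))) := by
  have hk : ((k : K) + 2) ≠ 0 := by exact_mod_cast (Nat.succ_ne_zero (k + 1))
  have h1 := (hx i).num
  have h2 : ∑ j ∈ range (r + 1), Sec.wd j (Sec.ct i (x j)) = x i := by
    have h3 : ∀ j ∈ range (r + 1), Sec.wd j (Sec.ct i (x j)) =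
        (if i = j then x j else 0) - Sec.ct i (Sec.wd j (x j)) := fun j _ => by
      rw [← ct_wd i j (x j)]
      abel
    rw [sum_congr rfl h3, sum_sub_distrib, ← map_sum, h0, map_zero, sub_zero, sum_ite_eq,
      if_pos (mem_range.2 (by omega))]
  have h4 : ∀ j ∈ range (r + 1),
      Sec.wd j (((k : K) + 2)⁻¹ • (Sec.ct j (x i) + Sec.ct i (x j))) =
      ((k : K) + 2)⁻¹ • (Sec.wd j (Sec.ct j (x i)) + Sec.wd j (Sec.ct i (x j))) := fun j _ => by
    rw [map_smul, map_add]
  rw [sum_congr rfl h4, ← smul_sum, sum_add_distrib, h1, h2]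
  have h5 : ((k + 1 : ℕ) : K) • x i + x i = ((k : K) + 2) • x i := by
    push_cast
    module
  rw [h5, smul_smul, inv_mul_cancel₀ hk, one_smul]

omit [CharZero K] in
/-- weight of a contraction. -/
theorem hh_ct {r i : ℕ} (hi : i ≤ r) {w : K} {x : Fk K} (hx : hh K r x = w • x) :
    hh K r (ct i x) = (w - (2 * (i : K) - r)) • ct i x := by
  funext S
  have h5 : hh K r (ct i x) S = wt K r S * ct i x S := rfl
  rw [h5, Pi.smul_apply, smul_eq_mul, ct_apply]
  split_ifs with h1
  · rw [mul_zero, mul_zero]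
  · have h2 := congrFun hx (insert i S)
    have h6 : hh K r x (insert i S) = wt K r (insert i S) * x (insert i S) := rfl
    rw [h6, Pi.smul_apply, smul_eq_mul] at h2
    have h3 : wt K r (insert i S) = wt K r S + (2 * (i : K) - r) := by
      unfold wt
      have hi1 : i ∈ range (r + 1) := mem_range.2 (by omega)
      rw [← add_sum_erase _ _ hi1,
        ← add_sum_erase (range (r + 1)) (fun l => if l ∈ S then (2 * (l : K) - r) else 0) hi1,
        if_pos (mem_insert_self i S), if_neg h1, zero_add, add_comm]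
      congr 1
      refine sum_congr rfl fun l hl => ?_
      have : l ∈ insert i S ↔ l ∈ S := by
        rw [mem_insert]
        exact ⟨fun t => t.elim (fun q => absurd q (mem_erase.1 hl).1) id, Or.inr⟩
      simp only [this]
    rw [h3] at h2
    have h7 : wt K r S * x (insert i S) = (w - (2 * (i : K) - r)) * x (insert i S) := by
      linear_combination h2
    calc wt K r S * (sg K i S * x (insert i S)) = sg K i S * (wt K r S * x (insert i S)) := by ring
      _ = _ := by rw [h7]; ring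

omit [Field K] [CharZero K] in
theorem two_sum_ge (T : Finset ℕ) : T.card * T.card ≤ 2 * ∑ i ∈ T, i + T.card := by
  obtain ⟨k, hk⟩ : ∃ k, k = T.card := ⟨_, rfl⟩
  induction k generalizing T with
  | zero =>
    rw [← hk]
    omega
  | succ k ih =>
    have hne : T.Nonempty := by
      rw [← card_pos]
      omega
    have hm := T.max'_mem hne
    obtain ⟨m, hmd⟩ : ∃ m, m = T.max' hne := ⟨_, rfl⟩
    rw [← hmd] at hm
    have h1 : T ⊆ range (m + 1) := by
      intro i hi
      rw [mem_range, hmd]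
      exact Nat.lt_succ_of_le (T.le_max' i hi)
    have h2 := card_le_card h1
    rw [card_range] at h2
    have h3 : (T.erase m).card = k := by
      rw [card_erase_of_mem hm]
      omega
    have h4 := ih (T.erase m) h3.symm
    rw [h3] at h4
    rw [← hk, ← add_sum_erase T (fun i => i) hm]
    have h5 : (k + 1) * (k + 1) = k * k + 2 * k + 1 := by ring
    rw [h5]
    omega

omit [CharZero K] in
theorem wt_int (r k : ℕ) (S : Finset ℕ) (h1 : S ⊆ range (r + 1)) (h2 : S.card = k) :
    wt K r S = ((2 * (∑ i ∈ S, i : ℕ) - r * k : ℤ) : K) := by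
  unfold wt
  rw [← sum_filter]
  have h3 : (range (r + 1)).filter (fun i => i ∈ S) = S := by
    ext i
    rw [mem_filter]
    exact ⟨fun t => t.2, fun t => ⟨h1 t, t⟩⟩
  rw [h3, sum_sub_distrib, sum_const, h2, ← mul_sum, nsmul_eq_mul]
  push_cast
  ring

theorem wt_bound (r k : ℕ) (S : Finset ℕ) (h1 : S ⊆ range (r + 1)) (h2 : S.card = k) :
    (2 * (∑ i ∈ S, i : ℕ) - r * k : ℤ) ≤ k * (r + 1 - k) ∧
    -(k * (r + 1 - k) : ℤ) ≤ (2 * (∑ i ∈ S, i : ℕ) - r * k : ℤ) := by
  have h3 := two_sum_ge S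
  -- complement
  have h4 := two_sum_ge (S.image (fun i => r - i))
  have hinj : Set.InjOn (fun i => r - i) (S : Set ℕ) := by
    intro i hi j hj hij
    have h5 := mem_range.1 (h1 (mem_coe.1 hi))
    have h6 := mem_range.1 (h1 (mem_coe.1 hj))
    have h7 : r - i = r - j := hij
    omega
  rw [card_image_of_injOn hinj, sum_image hinj] at h4
  have h5 : (∑ i ∈ S, (r - i)) + ∑ i ∈ S, i = r * k := by
    rw [← sum_add_distrib]
    have : ∀ i ∈ S, r - i + i = r := fun i hi => by
      have := mem_range.1 (h1 hi)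
      omega
    rw [sum_congr rfl this, sum_const, h2, smul_eq_mul, mul_comm]
  rw [h2] at h3 h4
  constructor
  · zify at h4 h5
    push_cast
    nlinarith only [h4, h5]
  · zify at h3
    push_cast
    nlinarith only [h3]

/-- large weights do not occur. -/
theorem IsDeg.eq_zero_of_weight {r k : ℕ} {x : Fk K} (hx : IsDeg r k x) (w : ℤ)
    (hw : Sec.hh K r x = (w : K) • x)
    (hb : (k * (r + 1 - k) : ℤ) < w ∨ w < -(k * (r + 1 - k) : ℤ)) : x = 0 := by
  funext S
  by_contra h
  obtain ⟨h1, h2⟩ := hx S h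
  have h3 := congrFun hw S
  have h6 : Sec.hh K r x S = wt K r S * x S := rfl
  rw [h6, Pi.smul_apply, smul_eq_mul, wt_int r k S h1 h2] at h3
  have h4 : (2 * (∑ i ∈ S, i : ℕ) - r * k : ℤ) = w := by
    exact_mod_cast mul_right_cancel₀ h h3
  obtain ⟨h7, h8⟩ := wt_bound r k S h1 h2
  rcases hb with h9 | h9 <;> omega

/-- nilpotency. -/
theorem IsDeg.nilp {r k : ℕ} {x : Fk K} (hx : IsDeg r k x) (m n : ℕ)
    (hw : Sec.hh K r x = ((n : K) - m) • x) (hb : (k * (r + 1 - k) : ℤ) < m + n + 2) :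
    (Sec.ee K r ^ (m + 1)) x = 0 ∧ (Sec.ff K r ^ (n + 1)) x = 0 := by
  have hs := sl_fock (K := K) r
  have h1 : ∀ l : ℕ, IsDeg r k ((Sec.ee K r ^ l) x) ∧ Sec.hh K r ((Sec.ee K r ^ l) x) =
      ((n : K) - m + 2 * l) • (Sec.ee K r ^ l) x := by
    intro l
    induction l with
    | zero =>
      rw [pow_zero, Module.End.one_apply, hw]
      exact ⟨hx, by congr 1; push_cast; ring⟩
    | succ l ih =>
      rw [pow_succ', Module.End.mul_apply]
      refine ⟨ih.1.ee, ?_⟩
      have h2 := hs.he ((Sec.ee K r ^ l) x)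
      rw [ih.2, map_smul] at h2
      push_cast
      linear_combination (norm := module) h2
  have h2 : ∀ l : ℕ, IsDeg r k ((Sec.ff K r ^ l) x) ∧ Sec.hh K r ((Sec.ff K r ^ l) x) =
      ((n : K) - m - 2 * l) • (Sec.ff K r ^ l) x := by
    intro l
    induction l with
    | zero =>
      rw [pow_zero, Module.End.one_apply, hw]
      exact ⟨hx, by congr 1; push_cast; ring⟩
    | succ l ih =>
      rw [pow_succ', Module.End.mul_apply]
      refine ⟨ih.1.ff, ?_⟩
      have h2 := hs.hf ((Sec.ff K r ^ l) x)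
      rw [ih.2, map_smul] at h2
      push_cast
      linear_combination (norm := module) h2
  constructor
  · refine (h1 (m + 1)).1.eq_zero_of_weight (n + m + 2) ?_ (Or.inl (by omega))
    rw [(h1 (m + 1)).2]
    congr 1
    push_cast
    ring
  · refine (h2 (n + 1)).1.eq_zero_of_weight (-(n + m + 2)) ?_ (Or.inr (by omega))
    rw [(h2 (n + 1)).2]
    congr 1
    push_cast
    ring

end

end Pool.Agent.Work.MP_1233f5_ag.Sec
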