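import Pool.Agent.Work.MP_1233f5_ag.Bdx.B01

/-!
# MP_1233f5_ag: Fock space model of the exterior algebra of `B = K^(r+1)`

`x : Finset ℕ → K`; `wd i`, `ct i` multiplication by and contraction with the basis vector `i`.
-/

set_option autoImplicit false

open Finset

namespace Pool.Agent.Work.MP_1233f5_ag.Sec

section

variable {K : Type} [Field K]

/-- the Fock space. -/
abbrev Fk (K : Type) := Finset ℕ → K

/-- the sign. -/
def sg (K : Type) [Field K] (i : ℕ) (S : Finset ℕ) : K := (-1) ^ (S.filter (· < i)).card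

/-- multiplication by the basis vector `i`. -/
def wd (i : ℕ) : Fk K →ₗ[K] Fk K where
  toFun x S := if i ∈ S then sg K i S * x (S.erase i) else 0
  map_add' x y := by
    funext S
    simp only [Pi.add_apply]
    split_ifs
    · ring
    · rw [add_zero]
  map_smul' c x := by
    funext S
    simp only [Pi.smul_apply, smul_eq_mul, RingHom.id_apply]
    split_ifs
    · ring
    · rw [mul_zero]

/-- contraction with the basis vector `i`. -/
def ct (i : ℕ) : Fk K →ₗ[K] Fk K where
  toFun x S := if i ∈ S then 0 else sg K i S * x (insert i S)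
  map_add' x y := by
    funext S
    simp only [Pi.add_apply]
    split_ifs
    · rw [add_zero]
    · ring
  map_smul' c x := by
    funext S
    simp only [Pi.smul_apply, smul_eq_mul, RingHom.id_apply]
    split_ifs
    · rw [mul_zero]
    · ring

theorem wd_apply (i : ℕ) (x : Fk K) (S : Finset ℕ) :
    wd i x S = if i ∈ S then sg K i S * x (S.erase i) else 0 := rfl

theorem ct_apply (i : ℕ) (x : Fk K) (S : Finset ℕ) :
    ct i x S = if i ∈ S then 0 else sg K i S * x (insert i S) := rfl

theorem sg_sq (i : ℕ) (S : Finset ℕ) : sg K i S * sg K i S = 1 := by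
  unfold sg
  rw [← pow_add, ← two_mul, pow_mul, neg_one_sq, one_pow]

theorem sg_insert (i j : ℕ) (S : Finset ℕ) (hj : j ∉ S) :
    sg K i (insert j S) = if j < i then -sg K i S else sg K i S := by
  unfold sg
  rw [filter_insert]
  split_ifs with h
  · rw [card_insert_of_notMem (fun t => hj (mem_filter.1 t).1), pow_succ]
    ring
  · rfl

theorem sg_erase (i j : ℕ) (S : Finset ℕ) (hj : j ∈ S) :
    sg K i (S.erase j) = if j < i then -sg K i S else sg K i S := by
  have h := sg_insert (K := K) i j (S.erase j) (fun t => (mem_erase.1 t).1 rfl)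
  rw [insert_erase hj] at h
  split_ifs at h ⊢ with h1
  · rw [h, neg_neg]
  · exact h.symm

theorem wd_wd (i j : ℕ) (x : Fk K) : wd i (wd j x) = -wd j (wd i x) := by
  funext S
  rw [Pi.neg_apply, wd_apply, wd_apply, wd_apply, wd_apply]
  by_cases hij : i = j
  · subst hij
    have : i ∉ S.erase i := fun t => (mem_erase.1 t).1 rfl
    rw [if_neg this, mul_zero, ite_self, neg_zero]
  · by_cases hi : i ∈ S
    · by_cases hj : j ∈ S
      · rw [if_pos hi, if_pos hj, if_pos (mem_erase.2 ⟨fun t => hij t.symm, hj⟩),
          if_pos (mem_erase.2 ⟨hij, hi⟩), sg_erase j i S hi, sg_erase i j S hj,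
          erase_right_comm]
        rcases lt_or_gt_of_ne hij with h | h
        · rw [if_pos h, if_neg (by omega)]
          ring
        · rw [if_neg (by omega), if_pos h]
          ring
      · rw [if_neg (fun t => hj (mem_erase.1 t).2), if_neg hj, mul_zero, ite_self, neg_zero]
    · rw [if_neg hi, if_neg (fun t => hi (mem_erase.1 t).2), mul_zero, ite_self, neg_zero]

theorem ct_ct (i j : ℕ) (x : Fk K) : ct i (ct j x) = -ct j (ct i x) := by
  funext S
  rw [Pi.neg_apply, ct_apply, ct_apply, ct_apply, ct_apply]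
  by_cases hij : i = j
  · subst hij
    rw [if_pos (mem_insert_self i S), mul_zero, ite_self, neg_zero]
  · by_cases hi : i ∈ S
    · rw [if_pos hi, if_pos (mem_insert_of_mem hi), mul_zero, ite_self, neg_zero]
    · by_cases hj : j ∈ S
      · rw [if_pos hj, if_pos (mem_insert_of_mem hj), mul_zero, ite_self, neg_zero]
      · rw [if_neg hi, if_neg hj, if_neg (fun t => (mem_insert.1 t).elim
          (fun q => hij q.symm) hj), if_neg (fun t => (mem_insert.1 t).elim hij hi),
          sg_insert j i S hi, sg_insert i j S hj, insert_comm]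
        rcases lt_or_gt_of_ne hij with h | h
        · rw [if_pos h, if_neg (by omega)]
          ring
        · rw [if_neg (by omega), if_pos h]
          ring

theorem ct_wd (i j : ℕ) (x : Fk K) :
    ct i (wd j x) + wd j (ct i x) = if i = j then x else 0 := by
  funext S
  rw [Pi.add_apply, ct_apply, wd_apply, wd_apply, ct_apply]
  by_cases hij : i = j
  · subst hij
    rw [if_pos rfl]
    by_cases hi : i ∈ S
    · rw [if_pos hi, if_pos hi, if_neg (fun t => (mem_erase.1 t).1 rfl), insert_erase hi,
        sg_erase i i S hi, if_neg (lt_irrefl i), ← mul_assoc, sg_sq, one_mul, zero_add]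
    · rw [if_neg hi, if_neg hi, if_pos (mem_insert_self i S), erase_insert hi,
        sg_insert i i S hi, if_neg (lt_irrefl i), ← mul_assoc, sg_sq, one_mul, add_zero]
  · rw [if_neg hij, Pi.zero_apply]
    by_cases hi : i ∈ S
    · by_cases hj : j ∈ S
      · rw [if_pos hi, if_pos hj, if_pos (mem_erase.2 ⟨hij, hi⟩), mul_zero, add_zero]
      · rw [if_pos hi, if_neg hj, add_zero]
    · by_cases hj : j ∈ S
      · rw [if_neg hi, if_pos hj, if_pos (mem_insert_of_mem hj),
          if_neg (fun t => hi (mem_erase.1 t).2), erase_insert_of_ne hij,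
          sg_insert j i S hi, sg_erase i j S hj]
        rcases lt_or_gt_of_ne hij with h | h
        · rw [if_pos h, if_neg (by omega)]
          ring
        · rw [if_neg (by omega), if_pos h]
          ring
      · rw [if_neg hi, if_neg hj, if_neg (fun t => (mem_insert.1 t).elim (fun q => hij q.symm) hj),
          mul_zero, add_zero]

theorem wd_ct_self (i : ℕ) (x : Fk K) (S : Finset ℕ) :
    wd i (ct i x) S = if i ∈ S then x S else 0 := by
  rw [wd_apply, ct_apply]
  split_ifs with h h'
  · exact absurd rfl (mem_erase.1 h').1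
  · rw [insert_erase h, sg_erase i i S h, if_neg (lt_irrefl i), ← mul_assoc, sg_sq, one_mul]
  · rfl

/-- commutator of second quantisations. -/
theorem comm (a b c d : ℕ) (x : Fk K) :
    wd a (ct b (wd c (ct d x))) - wd c (ct d (wd a (ct b x))) =
      (if b = c then wd a (ct d x) else 0) - (if d = a then wd c (ct b x) else 0) := by
  have h1 := congrArg (wd a) (ct_wd b c (ct d x))
  have h2 := congrArg (wd c) (ct_wd d a (ct b x))
  rw [map_add] at h1 h2
  have h3 : wd a (wd c (ct b (ct d x))) = wd c (wd a (ct d (ct b x))) := by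
    rw [wd_wd a c, ct_ct b d, map_neg, map_neg, neg_neg]
  have h4 : wd a (if b = c then ct d x else 0) = if b = c then wd a (ct d x) else 0 := by
    split_ifs
    · rfl
    · rw [map_zero]
  have h5 : wd c (if d = a then ct b x else 0) = if d = a then wd c (ct b x) else 0 := by
    split_ifs
    · rfl
    · rw [map_zero]
  rw [h4] at h1
  rw [h5] at h2
  rw [← h1, ← h2, h3]
  abel

/-- raising operator. -/
def ee (K : Type) [Field K] (r : ℕ) : Fk K →ₗ[K] Fk K :=
  ∑ i ∈ range r, ((r : K) - i) • (wd (i + 1) ∘ₗ ct i)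

/-- lowering operator. -/
def ff (K : Type) [Field K] (r : ℕ) : Fk K →ₗ[K] Fk K :=
  ∑ i ∈ range r, ((i : K) + 1) • (wd i ∘ₗ ct (i + 1))

/-- the weight. -/
def wt (K : Type) [Field K] (r : ℕ) (S : Finset ℕ) : K :=
  ∑ i ∈ range (r + 1), if i ∈ S then (2 * (i : K) - r) else 0

/-- the diagonal operator. -/
def hh (K : Type) [Field K] (r : ℕ) : Fk K →ₗ[K] Fk K where
  toFun x S := wt K r S * x S
  map_add' x y := by
    funext S
    simp only [Pi.add_apply]
    ring
  map_smul' c x := by
    funext S
    simp only [Pi.smul_apply, smul_eq_mul, RingHom.id_apply]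
    ring

theorem ee_apply (r : ℕ) (x : Fk K) :
    ee K r x = ∑ i ∈ range r, ((r : K) - i) • wd (i + 1) (ct i x) := by
  unfold ee
  rw [LinearMap.sum_apply]
  rfl

theorem ff_apply (r : ℕ) (x : Fk K) :
    ff K r x = ∑ i ∈ range r, ((i : K) + 1) • wd i (ct (i + 1) x) := by
  unfold ff
  rw [LinearMap.sum_apply]
  rfl

theorem wt_swap (r i : ℕ) (hi : i < r) (S : Finset ℕ) (h1 : i + 1 ∈ S) (h2 : i ∉ S) :
    wt K r (insert i (S.erase (i + 1))) = wt K r S - 2 := by
  unfold wt
  have hi1 : i ∈ range (r + 1) := mem_range.2 (by omega)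
  have hi2 : i + 1 ∈ (range (r + 1)).erase i := mem_erase.2 ⟨by omega, mem_range.2 (by omega)⟩
  rw [← add_sum_erase _ _ hi1, ← add_sum_erase _ _ hi2,
    ← add_sum_erase (range (r + 1)) (fun l => if l ∈ S then (2 * (l : K) - r) else 0) hi1,
    ← add_sum_erase ((range (r + 1)).erase i) (fun l => if l ∈ S then (2 * (l : K) - r) else 0) hi2]
  have h3 : ∑ l ∈ ((range (r + 1)).erase i).erase (i + 1),
      (if l ∈ insert i (S.erase (i + 1)) then (2 * (l : K) - r) else 0) =
      ∑ l ∈ ((range (r + 1)).erase i).erase (i + 1), (if l ∈ S then (2 * (l : K) - r) else 0) := by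
    refine sum_congr rfl fun l hl => ?_
    rw [mem_erase, mem_erase] at hl
    have : l ∈ insert i (S.erase (i + 1)) ↔ l ∈ S := by
      rw [mem_insert, mem_erase]
      exact ⟨fun t => t.elim (fun q => absurd q hl.2.1) (fun q => q.2), fun t => Or.inr ⟨hl.1, t⟩⟩
    simp only [this]
  rw [h3]
  have h4 : i + 1 ∉ insert i (S.erase (i + 1)) := by
    rw [mem_insert, mem_erase]
    rintro (q | q)
    · omega
    · exact q.1 rfl
  rw [if_pos (mem_insert_self i _), if_neg h4, if_neg h2, if_pos h1]
  push_cast
  ring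

/-- the `sl₂`-triple. -/
theorem sl_fock (r : ℕ) : Sl (ee K r) (ff K r) (hh K r) := by
  refine ⟨?_, ?_, ?_⟩
  · intro x
    rw [ff_apply r x, ee_apply r x, map_sum, map_sum]
    have h1 : ∀ j ∈ range r, ee K r (((j : K) + 1) • wd j (ct (j + 1) x)) =
        ∑ i ∈ range r, (((r : K) - i) * ((j : K) + 1)) • wd (i + 1) (ct i (wd j (ct (j + 1) x))) := by
      intro j _
      rw [map_smul, ee_apply, smul_sum]
      refine sum_congr rfl fun i _ => ?_
      rw [smul_smul, mul_comm]
    have h2 : ∀ i ∈ range r, ff K r (((r : K) - i) • wd (i + 1) (ct i x)) =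
        ∑ j ∈ range r, (((r : K) - i) * ((j : K) + 1)) • wd j (ct (j + 1) (wd (i + 1) (ct i x))) := by
      intro i _
      rw [map_smul, ff_apply, smul_sum]
      refine sum_congr rfl fun j _ => ?_
      rw [smul_smul]
    rw [sum_congr rfl h1, sum_congr rfl h2, sum_comm, ← sum_sub_distrib]
    have h3 : ∀ i ∈ range r, (∑ j ∈ range r, (((r : K) - i) * ((j : K) + 1)) •
          wd (i + 1) (ct i (wd j (ct (j + 1) x)))) -
        (∑ j ∈ range r, (((r : K) - i) * ((j : K) + 1)) •
          wd j (ct (j + 1) (wd (i + 1) (ct i x)))) =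
        (((r : K) - i) * ((i : K) + 1)) • (wd (i + 1) (ct (i + 1) x) - wd i (ct i x)) := by
      intro i hi
      rw [← sum_sub_distrib]
      have h4 : ∀ j ∈ range r, (((r : K) - i) * ((j : K) + 1)) •
            wd (i + 1) (ct i (wd j (ct (j + 1) x))) -
          (((r : K) - i) * ((j : K) + 1)) • wd j (ct (j + 1) (wd (i + 1) (ct i x))) =
          if i = j then (((r : K) - i) * ((i : K) + 1)) •
            (wd (i + 1) (ct (i + 1) x) - wd i (ct i x)) else 0 := by
        intro j _
        rw [← smul_sub, comm]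
        by_cases hij : i = j
        · subst hij
          rw [if_pos rfl, if_pos rfl, if_pos rfl]
        · rw [if_neg hij, if_neg hij, if_neg (by omega), sub_zero, smul_zero]
      rw [sum_congr rfl h4, sum_ite_eq, if_pos hi]
    rw [sum_congr rfl h3]
    funext S
    rw [Finset.sum_apply]
    simp only [Pi.smul_apply, Pi.sub_apply, wd_ct_self, smul_eq_mul]
    have h5 : hh K r x S = wt K r S * x S := rfl
    rw [h5]
    unfold wt
    have h6 : ∀ i ∈ range r, ((r : K) - i) * ((i : K) + 1) *
        ((if i + 1 ∈ S then x S else 0) - (if i ∈ S then x S else 0)) =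
        (((r : K) - i) * ((i : K) + 1) * (if i + 1 ∈ S then 1 else 0)) * x S -
        (((r : K) - i) * ((i : K) + 1) * (if i ∈ S then 1 else 0)) * x S := by
      intro i _
      split_ifs <;> ring
    rw [sum_congr rfl h6, sum_sub_distrib, ← sum_mul, ← sum_mul, ← sub_mul]
    congr 1
    -- telescoping
    have h7 : ∑ i ∈ range r, ((r : K) - i) * ((i : K) + 1) * (if i + 1 ∈ S then (1 : K) else 0) =
        ∑ i ∈ range (r + 1), ((r : K) - i + 1) * (i : K) * (if i ∈ S then (1 : K) else 0) := by
      rw [sum_range_succ', Nat.cast_zero, mul_zero, zero_mul, add_zero]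
      refine sum_congr rfl fun i _ => ?_
      push_cast
      ring
    have h8 : ∑ i ∈ range r, ((r : K) - i) * ((i : K) + 1) * (if i ∈ S then (1 : K) else 0) =
        ∑ i ∈ range (r + 1), ((r : K) - i) * ((i : K) + 1) * (if i ∈ S then (1 : K) else 0) := by
      rw [sum_range_succ, sub_self, zero_mul, zero_mul, add_zero]
    rw [h7, h8, ← sum_sub_distrib]
    refine sum_congr rfl fun i _ => ?_
    split_ifs
    · ring
    · ring
  · intro x
    funext S
    have h5 : ∀ y : Fk K, hh K r y S = wt K r S * y S := fun _ => rfl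
    rw [Pi.sub_apply, h5, Pi.smul_apply, ee_apply, ee_apply]
    rw [Finset.sum_apply, Finset.sum_apply, smul_eq_mul, mul_sum, mul_sum, ← sum_sub_distrib]
    refine sum_congr rfl fun i hi => ?_
    have hi' := mem_range.1 hi
    simp only [Pi.smul_apply, smul_eq_mul, wd_apply, ct_apply]
    by_cases h1 : i + 1 ∈ S
    · by_cases h2 : i ∈ S
      · rw [if_pos h1, if_pos h1, if_pos (mem_erase.2 ⟨by omega, h2⟩),
          if_pos (mem_erase.2 ⟨by omega, h2⟩)]
        ring
      · have h6 : i ∉ S.erase (i + 1) := fun t => h2 (mem_erase.1 t).2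
        have h7 : hh K r x (insert i (S.erase (i + 1))) =
            wt K r (insert i (S.erase (i + 1))) * x (insert i (S.erase (i + 1))) := rfl
        rw [if_pos h1, if_pos h1, if_neg h6, if_neg h6, h7, wt_swap r i hi' S h1 h2]
        ring
    · rw [if_neg h1, if_neg h1]
      ring
  · intro x
    funext S
    have h5 : ∀ y : Fk K, hh K r y S = wt K r S * y S := fun _ => rfl
    rw [Pi.sub_apply, h5, Pi.neg_apply, Pi.smul_apply, ff_apply, ff_apply]
    rw [Finset.sum_apply, Finset.sum_apply, smul_eq_mul, mul_sum, mul_sum, ← sum_sub_distrib,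
      ← sum_neg_distrib]
    refine sum_congr rfl fun i hi => ?_
    have hi' := mem_range.1 hi
    simp only [Pi.smul_apply, smul_eq_mul, wd_apply, ct_apply]
    by_cases h1 : i ∈ S
    · by_cases h2 : i + 1 ∈ S
      · rw [if_pos h1, if_pos h1, if_pos (mem_erase.2 ⟨by omega, h2⟩),
          if_pos (mem_erase.2 ⟨by omega, h2⟩)]
        ring
      · have h6 : i + 1 ∉ S.erase i := fun t => h2 (mem_erase.1 t).2
        have h7 : hh K r x (insert (i + 1) (S.erase i)) =
            wt K r (insert (i + 1) (S.erase i)) * x (insert (i + 1) (S.erase i)) := rfl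
        have h8 : wt K r S = wt K r (insert (i + 1) (S.erase i)) - 2 := by
          have h9 := wt_swap (K := K) r i hi' (insert (i + 1) (S.erase i)) (mem_insert_self _ _)
            (fun t => (mem_insert.1 t).elim (fun q => by omega) (fun q => (mem_erase.1 q).1 rfl))
          rw [erase_insert h6, insert_erase h1] at h9
          exact h9
        rw [if_pos h1, if_pos h1, if_neg h6, if_neg h6, h7, h8]
        ring
    · rw [if_neg h1, if_neg h1]
      ring

end

end Pool.Agent.Work.MP_1233f5_ag.Sec
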