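import Pool.Agent.Work.MP_1233f5_ag.Sec.Deg

/-!
# MP_1233f5_ag: multiplication of sections by a letter set
-/

set_option autoImplicit false

open Finset

namespace Pool.Agent.Work.MP_1233f5_ag.Sec

section

variable {K : Type} [Field K]

theorem ee_wd (r j : ℕ) (hj : j ≤ r) (x : Fk K) :
    ee K r (wd j x) = wd j (ee K r x) + ((r : K) - j) • wd (j + 1) x := by
  rw [ee_apply, ee_apply, map_sum]
  have h1 : ∀ i ∈ range r, ((r : K) - i) • wd (i + 1) (ct i (wd j x)) =
      wd j (((r : K) - i) • wd (i + 1) (ct i x)) +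
        if i = j then ((r : K) - j) • wd (j + 1) x else 0 := by
    intro i _
    have h2 := congrArg (wd (i + 1)) (ct_wd i j x)
    rw [map_add, wd_wd (i + 1) j] at h2
    rw [map_smul]
    by_cases hij : i = j
    · subst hij
      rw [if_pos rfl] at h2 ⊢
      linear_combination (norm := module) ((r : K) - i) • h2
    · rw [if_neg hij, map_zero] at h2
      rw [if_neg hij]
      linear_combination (norm := module) ((r : K) - i) • h2
  rw [sum_congr rfl h1, sum_add_distrib, sum_ite_eq']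
  congr 1
  split_ifs with h
  · rfl
  · have : j = r := by
      rw [mem_range] at h
      omega
    rw [this, sub_self, zero_smul]

theorem ff_wd (r j : ℕ) (hj : j ≤ r) (x : Fk K) :
    ff K r (wd j x) = wd j (ff K r x) + (j : K) • wd (j - 1) x := by
  rw [ff_apply, ff_apply, map_sum]
  have h1 : ∀ i ∈ range r, ((i : K) + 1) • wd i (ct (i + 1) (wd j x)) =
      wd j (((i : K) + 1) • wd i (ct (i + 1) x)) +
        if i + 1 = j then (j : K) • wd (j - 1) x else 0 := by
    intro i _
    have h2 := congrArg (wd i) (ct_wd (i + 1) j x)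
    rw [map_add, wd_wd i j] at h2
    rw [map_smul]
    by_cases hij : i + 1 = j
    · subst hij
      rw [if_pos rfl] at h2 ⊢
      rw [Nat.add_sub_cancel]
      push_cast
      linear_combination (norm := module) ((i : K) + 1) • h2
    · rw [if_neg hij, map_zero] at h2
      rw [if_neg hij]
      linear_combination (norm := module) ((i : K) + 1) • h2
  rw [sum_congr rfl h1, sum_add_distrib]
  congr 1
  rcases j with _ | j
  · rw [Nat.cast_zero, zero_smul]
    refine sum_eq_zero fun i _ => ?_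
    rw [if_neg (Nat.succ_ne_zero i)]
  · have h3 : ∀ i ∈ range r, (if i + 1 = j + 1 then ((j + 1 : ℕ) : K) • wd (j + 1 - 1) x else 0) =
        if i = j then ((j + 1 : ℕ) : K) • wd (j + 1 - 1) x else 0 := by
      intro i _
      by_cases hij : i = j
      · rw [if_pos hij, if_pos (by omega)]
      · rw [if_neg hij, if_neg (by omega)]
    rw [sum_congr rfl h3, sum_ite_eq', if_pos (mem_range.2 (by omega))]

end

section

variable {K : Type} [Field K] {α : Type} [DecidableEq α]

/-- multiplication of a section by the letter set `g`. -/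
def swd (g : Finset α) (x : Finset α → Fk K) : Finset α → Fk K := fun Y =>
  wd (g ∩ Y).card (x (Y \ g))

theorem IsSec.swd {r : ℕ} {R g : Finset α} {x : Finset α → Fk K} (hg : g.card = r)
    (hd : Disjoint R g) (H : IsSec (Sec.ee K r) (Sec.ff K r) R x) :
    IsSec (Sec.ee K r) (Sec.ff K r) (R ∪ g) (Sec.swd g x) := by
  have hgle : ∀ Y : Finset α, (g ∩ Y).card ≤ r := fun Y => by
    rw [← hg]
    exact card_le_card inter_subset_left
  have hsub : ∀ Y : Finset α, Y ⊆ R ∪ g → Y \ g ⊆ R := by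
    intro Y hY a ha
    rw [mem_sdiff] at ha
    exact (mem_union.1 (hY ha.1)).resolve_right ha.2
  have hRg : ∀ a, a ∈ R → a ∉ g := fun a h1 h2 => (Finset.disjoint_left.1 hd) h1 h2
  refine ⟨?_, ?_, ?_⟩
  · intro Y hY
    unfold Sec.swd
    rw [H.supp _ fun hc => hY fun a ha => ?_, map_zero]
    by_cases hag : a ∈ g
    · exact mem_union_right _ hag
    · exact mem_union_left _ (hc (mem_sdiff.2 ⟨ha, hag⟩))
  · intro Y hY
    unfold Sec.swd
    rw [ee_wd r _ (hgle Y), H.ee _ (hsub Y hY), map_sum]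
    have hsplit : (R ∪ g) \ Y = (R \ Y) ∪ (g \ Y) := union_sdiff_distrib _ _ _
    rw [hsplit, sum_union (hd.mono sdiff_subset sdiff_subset)]
    congr 1
    · have h1 : R \ (Y \ g) = R \ Y := by
        ext a
        simp only [mem_sdiff, not_and, not_not]
        exact ⟨fun t => ⟨t.1, fun q => hRg a t.1 (t.2 q)⟩, fun t => ⟨t.1, fun q => absurd q t.2⟩⟩
      rw [h1]
      refine sum_congr rfl fun a ha => ?_
      have ha' := mem_sdiff.1 ha
      rw [inter_insert_of_notMem (hRg a ha'.1), insert_sdiff_of_notMem _ (hRg a ha'.1)]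
    · have h1 : ∀ a ∈ g \ Y, wd (g ∩ insert a Y).card (x (insert a Y \ g)) =
          wd ((g ∩ Y).card + 1) (x (Y \ g)) := by
        intro a ha
        have ha' := mem_sdiff.1 ha
        rw [inter_insert_of_mem ha'.1, insert_sdiff_of_mem _ ha'.1,
          card_insert_of_notMem (fun t => ha'.2 (mem_inter.1 t).2)]
      rw [sum_congr rfl h1, sum_const, ← Nat.cast_smul_eq_nsmul K]
      congr 1
      have h3 : (g ∩ Y).card + (g \ Y).card = r := by
        rw [card_inter_add_card_sdiff, hg]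
      have h4 : ((g ∩ Y).card : K) + ((g \ Y).card : K) = r := by rw [← Nat.cast_add, h3]
      rw [← h4]
      ring
  · intro Y hY
    unfold Sec.swd
    rw [ff_wd r _ (hgle Y), H.ff _ (hsub Y hY), map_sum]
    have hsplit : Y = (Y \ g) ∪ (g ∩ Y) := by
      rw [inter_comm]
      exact (sdiff_union_inter Y g).symm
    have hdis : Disjoint (Y \ g) (g ∩ Y) := by
      rw [Finset.disjoint_left]
      intro a h1 h2
      exact (mem_sdiff.1 h1).2 (mem_inter.1 h2).1
    have e0 : ∑ a ∈ Y, wd (g ∩ Y.erase a).card (x (Y.erase a \ g)) =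
        ∑ a ∈ (Y \ g) ∪ (g ∩ Y), wd (g ∩ Y.erase a).card (x (Y.erase a \ g)) := by
      rw [← hsplit]
    rw [e0, sum_union hdis]
    congr 1
    · refine sum_congr rfl fun a ha => ?_
      have ha' := mem_sdiff.1 ha
      have h1 : g ∩ Y.erase a = g ∩ Y := by
        ext b
        simp only [mem_inter, mem_erase]
        exact ⟨fun t => ⟨t.1, t.2.2⟩, fun t => ⟨t.1, fun q => ha'.2 (q ▸ t.1), t.2⟩⟩
      have h2 : Y.erase a \ g = (Y \ g).erase a := by
        ext b
        simp only [mem_sdiff, mem_erase]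
        exact ⟨fun t => ⟨t.1.1, t.1.2, t.2⟩, fun t => ⟨⟨t.1, t.2.1⟩, t.2.2⟩⟩
      rw [h1, h2]
    · have h1 : ∀ a ∈ g ∩ Y, wd (g ∩ Y.erase a).card (x (Y.erase a \ g)) =
          wd ((g ∩ Y).card - 1) (x (Y \ g)) := by
        intro a ha
        have ha' := mem_inter.1 ha
        have h1 : g ∩ Y.erase a = (g ∩ Y).erase a := by
          ext b
          simp only [mem_inter, mem_erase]
          exact ⟨fun t => ⟨t.2.1, t.1, t.2.2⟩, fun t => ⟨t.2.1, t.1, t.2.2⟩⟩
        have h2 : Y.erase a \ g = Y \ g := by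
          ext b
          simp only [mem_sdiff, mem_erase]
          exact ⟨fun t => ⟨t.1.2, t.2⟩, fun t => ⟨⟨fun q => t.2 (q ▸ ha'.1), t.1⟩, t.2⟩⟩
        rw [h1, h2, card_erase_of_mem ha]
      rw [sum_congr rfl h1, sum_const, ← Nat.cast_smul_eq_nsmul K]

/-- two multiplications anticommute. -/
theorem swd_swd {g g' : Finset α} (hd : Disjoint g g') (x : Finset α → Fk K) (Y : Finset α) :
    swd g (swd g' x) Y = -swd g' (swd g x) Y := by
  unfold swd
  have h1 : g' ∩ (Y \ g) = g' ∩ Y := by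
    ext a
    simp only [mem_inter, mem_sdiff]
    exact ⟨fun t => ⟨t.1, t.2.1⟩, fun t => ⟨t.1, t.2,
      fun q => (Finset.disjoint_left.1 hd) q t.1⟩⟩
  have h2 : g ∩ (Y \ g') = g ∩ Y := by
    ext a
    simp only [mem_inter, mem_sdiff]
    exact ⟨fun t => ⟨t.1, t.2.1⟩, fun t => ⟨t.1, t.2,
      fun q => (Finset.disjoint_left.1 hd) t.1 q⟩⟩
  rw [h1, h2, wd_wd, sdiff_right_comm]

/-- brackets commute with multiplications. -/
theorem brk_swd {g : Finset α} {u v : α} (hu : u ∉ g) (hv : v ∉ g) (x : Finset α → Fk K)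
    (Y : Finset α) : brk u v (swd g x) Y = swd g (brk u v x) Y := by
  have e1 : ∀ c, c ∉ g → g ∩ Y.erase c = g ∩ Y := by
    intro c hc
    ext a
    simp only [mem_inter, mem_erase]
    exact ⟨fun t => ⟨t.1, t.2.2⟩, fun t => ⟨t.1, fun q => hc (q ▸ t.1), t.2⟩⟩
  have e2 : ∀ c, c ∉ g → (c ∈ Y \ g ↔ c ∈ Y) := by
    intro c hc
    rw [mem_sdiff]
    exact ⟨fun t => t.1, fun t => ⟨t, hc⟩⟩
  have e3 : ∀ c, Y.erase c \ g = (Y \ g).erase c := by
    intro c
    ext b
    simp only [mem_sdiff, mem_erase]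
    exact ⟨fun t => ⟨t.1.1, t.1.2, t.2⟩, fun t => ⟨⟨t.1, t.2.1⟩, t.2.2⟩⟩
  unfold brk swd
  beta_reduce
  simp only [e2 u hu, e2 v hv]
  rw [e1 u hu, e1 v hv, e3 u, e3 v]
  split_ifs
  · rfl
  · rw [map_neg]
  · rw [map_zero]

/-- degree of a product. -/
theorem IsDeg.swd {r k : ℕ} {g : Finset α} (hg : g.card = r) {x : Finset α → Fk K}
    (hx : ∀ Y, IsDeg r k (x Y)) (Y : Finset α) : IsDeg r (k + 1) (swd g x Y) := by
  unfold Sec.swd
  refine (hx _).wd ?_
  rw [← hg]
  exact card_le_card inter_subset_left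

/-- degree of a multiple of a bracket. -/
theorem IsDeg.brk {r k : ℕ} {u v : α} {x : Finset α → Fk K}
    (hx : ∀ Y, IsDeg r k (x Y)) (Y : Finset α) : IsDeg r k (brk u v x Y) := by
  unfold Sec.brk
  split_ifs
  · exact hx _
  · exact (hx _).neg
  · exact IsDeg.zero _ _

end

end Pool.Agent.Work.MP_1233f5_ag.Sec
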